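import Pool.Agent.MP_ed9623_an.H77.SpecW

/-! Pointwise bounds by integrals over segments. -/

open MeasureTheory Filter Topology Set

namespace Pool.Agent.MP_ed9623_an.H77

namespace Slice

variable {u g : ℝ → ℝ} {a b x y l T : ℝ}

theorem ii (hg : MemLp g 2 volume) (x y : ℝ) : IntervalIntegrable g volume x y :=
  ((hg.locallyIntegrable one_le_two).integrableOn_isCompact isCompact_uIcc).intervalIntegrable

theorem sub_le (hg : MemLp g 2 volume) (h : x ≤ y) (ha : a ≤ x) (hb : y ≤ b) :
    ∫ r in x..y, g r ^ 2 ≤ ∫ r in Ioo a b, g r ^ 2 := by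
  rw [intervalIntegral.integral_of_le h, integral_Ioc_eq_integral_Ioo]
  exact setIntegral_mono_set hg.integrable_sq.integrableOn
    (Eventually.of_forall fun _ => sq_nonneg _) (Ioo_subset_Ioo ha hb).eventuallyLE

theorem cs (hg : MemLp g 2 volume) (h : x ≤ y) (ha : a ≤ x) (hb : y ≤ b) (hl : 0 < l)
    (h' : y - x ≤ l) : (∫ r in x..y, g r) ^ 2 ≤ l * ∫ r in Ioo a b, g r ^ 2 := by
  obtain ⟨t, ht⟩ : ∃ t, ∫ r in x..y, g r = l * t := ⟨_, (mul_div_cancel₀ _ hl.ne').symm⟩
  have h1 := intervalIntegral.integral_mono_on (f := fun r => 2 * t * g r)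
    (g := fun r => g r ^ 2 + t ^ 2) h ((ii hg x y).const_mul _)
    (hg.integrable_sq.intervalIntegrable.add intervalIntegrable_const)
    fun r _ => by nlinarith [sq_nonneg (g r - t)]
  rw [intervalIntegral.integral_const_mul, intervalIntegral.integral_add
    hg.integrable_sq.intervalIntegrable intervalIntegrable_const, intervalIntegral.integral_const,
    ht, smul_eq_mul] at h1
  have h2 := sub_le hg h ha hb
  have h3 := mul_le_mul_of_nonneg_right h' (sq_nonneg t)
  rw [ht]
  nlinarith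

theorem one (hu : MemLp u 2 volume) (hg : MemLp g 2 volume)
    (h : ∀ᵐ x, x ∈ Ioo a b → u x = T + ∫ r in a..x, g r) (hy : y ∈ Ioo a b) (hl : 0 < l)
    (hl' : l ≤ b - a) : (T + ∫ r in a..y, g r) ^ 2 ≤
      2 * ((∫ r in Ioo a b, u r ^ 2) / l + l * ∫ r in Ioo a b, g r ^ 2) := by
  obtain ⟨s, h1, h2, h3, h4⟩ : ∃ s, a ≤ s ∧ s + l ≤ b ∧ s ≤ y ∧ y ≤ s + l :=
    ⟨min y (b - l), le_min hy.1.le (by linarith), by linarith [min_le_right y (b - l)],
      min_le_left _ _, by
        rw [← min_add_add_right]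
        exact le_min (by linarith) (by linarith [hy.2])⟩
  have h5 : ∫ _ in s..s + l, ((T + ∫ r in a..y, g r) ^ 2 / 2 - l * ∫ r in Ioo a b, g r ^ 2) ≤
      ∫ r in s..s + l, u r ^ 2 := by
    refine intervalIntegral.integral_mono_ae_restrict (by linarith) intervalIntegrable_const
      hu.integrable_sq.intervalIntegrable ?_
    rw [← Measure.restrict_congr_set Ioo_ae_eq_Icc]
    refine (ae_restrict_iff' measurableSet_Ioo).2 (h.mono fun x hx hx' => ?_)
    have h6 : (∫ r in x..y, g r) ^ 2 ≤ l * ∫ r in Ioo a b, g r ^ 2 := by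
      rcases le_total x y with h7 | h7
      · exact cs hg h7 (by linarith [hx'.1]) hy.2.le hl (by linarith [hx'.1])
      · rw [intervalIntegral.integral_symm, neg_sq]
        exact cs hg h7 hy.1.le (by linarith [hx'.2]) hl (by linarith [hx'.2])
    beta_reduce
    rw [hx ⟨by linarith [hx'.1], by linarith [hx'.2]⟩,
      ← intervalIntegral.integral_add_adjacent_intervals (ii hg a x) (ii hg x y)]
    nlinarith [sq_nonneg (T + (∫ r in a..x, g r) - ∫ r in x..y, g r)]
  rw [intervalIntegral.integral_const, add_sub_cancel_left, smul_eq_mul] at h5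
  have h6 := (le_div_iff₀' hl).2 (h5.trans (sub_le hu (by linarith) h1 h2))
  linarith

theorem slL {f : P → ℝ} (hf : M2 f) : ∀ᵐ s, MemLp (fun y => f (y, s)) 2 volume := by
  filter_upwards [hf.int_prod.prod_left_ae, AEStronglyMeasurable.prodMk_right
    (μ := (volume : Measure ℝ)) (ν := (volume : Measure ℝ)) hf.meas] with s h1 h2
  exact (memLp_two_iff_integrable_sq h2).2 h1

theorem slR {f : P → ℝ} (hf : M2 f) : ∀ᵐ y, MemLp (fun s => f (y, s)) 2 volume := by
  filter_upwards [hf.int_prod.prod_right_ae, AEStronglyMeasurable.prodMk_left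
    (μ := (volume : Measure ℝ)) (ν := (volume : Measure ℝ)) hf.meas] with s h1 h2
  exact (memLp_two_iff_integrable_sq h2).2 h1

end Slice

open Slice in
theorem rowSlice : OfSlice := by
  intro hF a b c d f g hf hg
  have q1 : Measure.QuasiMeasurePreserving (Prod.fst : P → ℝ) volume volume :=
    Measure.quasiMeasurePreserving_fst
  have q2 : Measure.QuasiMeasurePreserving (Prod.snd : P → ℝ) volume volume :=
    Measure.quasiMeasurePreserving_snd
  refine ⟨fun h => ?_, fun h => ?_⟩
  · obtain ⟨T, -, hT⟩ := (hF a b c d f g hf hg).2 h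
    have h1 := Measure.ae_ae_of_ae_prod
      ((Measure.measurePreserving_swap (μ := (volume : Measure ℝ))
        (ν := (volume : Measure ℝ))).quasiMeasurePreserving.ae hT)
    filter_upwards [hT, q2.ae h1, q2.ae (slL hf), q2.ae (slL hg)] with p h2 h3 h4 h5 hp l hl hl'
    rw [h2 hp]
    exact one h4 h5 (h3.mono fun x hx hx' => hx ⟨hx', hp.2⟩) hp.1 hl hl'
  · obtain ⟨T, -, hT⟩ := (hF a b c d f g hf hg).1 h
    have h1 := Measure.ae_ae_of_ae_prod (μ := (volume : Measure ℝ)) (ν := (volume : Measure ℝ)) hT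
    filter_upwards [hT, q1.ae h1, q1.ae (slR hf), q1.ae (slR hg)] with p h2 h3 h4 h5 hp l hl hl'
    rw [h2 hp]
    exact one h4 h5 (h3.mono fun x hx hx' => hx ⟨hp.1, hx'⟩) hp.2 hl hl'

end Pool.Agent.MP_ed9623_an.H77
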