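import Pool.Agent.MP_ed9623_an.H77.SpecX

/-! Transport of the defect through a boundary chart. -/

open MeasureTheory Filter Topology Set
open scoped ContDiff

namespace Pool.Agent.MP_ed9623_an.H77

open H64

theorem rowDefP : OfDefP := by
  intro hTh hTr hI hC hB hL Ω x τ γ r hΩ hc
  obtain ⟨t1, t2, -, t4, t5, t6⟩ := hTr x τ γ hc.un hc.gam
  obtain ⟨-, -, -, -, m5, -⟩ := hTh x τ γ hc.un hc.gam
  obtain ⟨c1, c2, c3⟩ := hC x τ γ hc.un hc.gam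
  obtain ⟨ξ, x1, x2, x3⟩ := hL γ r hc.gam hc.r0
  have J : ∀ ζ, (∀ j, Test (Thi x τ γ ⁻¹' Q r) (ζ j)) →
      ∫ q in Ω, crl (fun _ => 0) ζ q = ∫ p in Qp 0 r, crl γ (tv x τ γ ζ) p := fun ζ hζ => by
    rw [c3 Ω r _ hΩ hc fun q hq =>
      image_eq_zero_of_notMem_tsupport fun a => hq ((test_crl Gam.zero hζ).2.2 a)]
    simp only [c1 ζ fun j => (hζ j).1]
  have b0 := (t4 _ ξ x1).1
  refine ⟨bv x τ γ ξ, b0, by rw [J _ b0, c2, x2], fun a da w dw z dz h ζ hζ => ?_⟩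
  have mz := fun j => (h.vz.h1 j).m
  have key : ∀ ζ, (∀ j, Test univ (ζ j)) →
      Tx γ (tv x τ γ a) (tv x τ γ w) (td x τ γ dw) (tv x τ γ z) ζ =
        Tx (fun _ => 0) a w dw z (bv x τ γ ζ) := fun ζ hζ => by
    obtain ⟨k1, k2, k3⟩ := t6 ζ hζ
    rw [Tx, Tx, k1 z mz, k2 dw fun j => (h.vw.h1 j).md,
      k3 a w (fun j => (h.va.h1 j).m) fun j => (h.vw.h1 j).m,
      k3 w a (fun j => (h.vw.h1 j).m) fun j => (h.va.h1 j).m]
  have low : ∀ v : Fin 2 → P → ℝ, (∀ j, Van Ωᶜ (v j)) →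
      ∀ j, Van (Q r \ Qp 0 r) (tv x τ γ v j) := fun v h j =>
    (((t1 v).2 _).1 h j).mono fun p hp k => hp.2 ⟨hp.1, (hc.mem p hp.1).1 k⟩
  obtain ⟨-, k2, k3⟩ := t4 _ ζ hζ
  have k4 : ∀ j, Test (Q r) (tv x τ γ ζ j) := fun j => (k2 j).mono fun p hp => by
    rwa [mem_preimage, mem_preimage, Thi_Th hc.un] at hp
  have va := (t2 _ _ h.va).1
  have vw := (t2 _ _ h.vw).1
  have vz := fun j => ((t1 z).1 mz j).1
  have := x3 (Tx γ (tv x τ γ a) (tv x τ γ w) (td x τ γ dw) (tv x τ γ z))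
    (fun ζ ξ c h1 h2 => Tx_lin hc.gam (fun j => (va.h1 j).m) (fun j => (vw.h1 j).m)
      (fun j => (vw.h1 j).md) vz h1 h2 c)
    (hB γ r _ _ _ _ _ hc.gam hc.r0 va vw vz (fun j => ⟨low a h.na j, low w h.nw j, low z h.nz j⟩)
      fun ζ hζ => (key ζ fun j => (hζ j).top).trans (h.e1 _ fun j =>
        ((t4 _ ζ hζ).1 j).mono fun q hq => by
          rw [← Th_Thi (x := x) (γ := γ) hc.un q]
          exact (hc.mem _ hq.1).2 hq.2))
    (fun θ hθ => (key (grad γ θ) fun j => (hθ.dd hc.gam j).top).trans (by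
      rw [(t5 θ hθ.1).2]
      exact (hI Ω a w z da dw dz hΩ h.va h.vw h.vz h.nda h.e1).2 _ (m5 _ θ hθ).2.top)) _ k4
  rwa [key _ fun j => (k4 j).top, k3, key _ fun j => (x1 j).top, ← J ζ hζ] at this

end Pool.Agent.MP_ed9623_an.H77
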