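import Pool.Agent.MP_ed9623_an.H77.SpecX

/-! A continuous function whose extension by zero has a square integrable gradient. -/

open MeasureTheory Filter Topology Set
open scoped ContDiff

namespace Pool.Agent.MP_ed9623_an.H77

open H64

theorem rowIdn : OfIdn := by
  intro hTr hZ hC Ω x τ γ r ε F h hΩ hc ε0 hF hh he
  obtain ⟨t1, -, -, t4, -, t6⟩ := hTr x τ γ hc.un hc.gam
  obtain ⟨c1, c2, c3⟩ := hC x τ γ hc.un hc.gam
  obtain ⟨s, s0, sr, hs⟩ := hc.small ε0
  have hG : Continuous fun p => F (Th x τ γ p) := hF.comp (sm_Th hc.gam x τ).continuous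
  have hm := (isOpen_Qp 0 s).measurableSet
  have m : M2 ((Qp 0 s).indicator fun p => F (Th x τ γ p)) :=
    M2.of_int (hG.aestronglyMeasurable.indicator hm)
      (((((hG.pow 2).continuousOn.integrableOn_compact (isCompact_closedBall 0 s)).mono_set
        ((Qp_sub 0 s).trans (Q_eq_ball s ▸ Metric.ball_subset_closedBall))).integrable_indicator
          hm).congr
      (Eventually.of_forall fun p => by by_cases hp : p ∈ Qp 0 s <;> simp [hp]))
  obtain ⟨-, z2, -, -, -, -, z7⟩ := hZ s _ _ s0 m ((t1 h).1 hh 0).1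
  have := (z7 (z2 (fun φ hφ => ?_) (Eventually.of_forall fun p hp =>
    indicator_of_notMem (fun a => hp.2 a) _))).2 _ hG
    (Eventually.of_forall fun p hp => by rw [indicator_of_mem hp]) 0 ⟨by linarith, s0⟩
  · rwa [show ((0, 0) : P) = 0 from rfl, Th_zero hc.g0] at this
  have a := test_single hφ 0
  have b := (t4 _ _ a).1
  have e := he _ fun j => (b j).mono hs
  rw [c3 Ω s _ hΩ (hc.mono s0 sr) fun q hq => by
    rw [(test_crl Gam.zero b).off hq, mul_zero], ← (t6 _ fun j => (a j).top).1 h hh] at e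
  simp only [← c1 _ fun j => (b j).1, c2] at e
  have z : ∀ e : P, pd e (0 : P → ℝ) = 0 := pd_zero_fun
  simp only [← indicator_mul_left, integral_indicator hm]
  rw [eq_neg_iff_add_eq_zero]
  simpa [ip, crl, dd0, dd1, z, integral_neg, neg_eq_iff_add_eq_zero] using e

end Pool.Agent.MP_ed9623_an.H77
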