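import Pool.Agent.MP_ed9623_an.H77.SpecA

/-! Limits of bounded solutions along an ultrafilter. -/

open MeasureTheory Filter Topology Set
open scoped ContDiff InnerProductSpace

namespace Pool.Agent.MP_ed9623_an.H77

namespace Lim

variable {H V : Type} [NormedAddCommGroup H] [InnerProductSpace ℝ H] [CompleteSpace H]
  [NormedAddCommGroup V] [InnerProductSpace ℝ V] [CompleteSpace V]
  {S : St H V} {R T K : ℝ} {U : ℝ → V}

theorem G_lip (S : St H V) {u v : V} (hu : ‖u‖ ≤ R) (hv : ‖v‖ ≤ R) :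
    ‖S.G u - S.G v‖ ≤ (‖S.A‖ + 2 * ‖S.B‖ * R) * ‖u - v‖ := by
  rw [S.G_sub, norm_neg]
  have h1 := S.A.le_opNorm (u - v)
  have h2 := S.B.le_opNorm₂ (u - v) u
  have h3 := S.B.le_opNorm₂ v (u - v)
  have h4 := mul_le_mul_of_nonneg_left hu (mul_nonneg (norm_nonneg S.B) (norm_nonneg (u - v)))
  have h5 := mul_le_mul_of_nonneg_left hv (mul_nonneg (norm_nonneg S.B) (norm_nonneg (u - v)))
  refine (norm_add₃_le).trans ?_
  linarith

theorem lip (h : Bd S R (Ioi T) U) {a b : ℝ} (ha : T < a) (hb : T < b) :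
    ‖S.ι (U b) - S.ι (U a)‖ ≤ R * ‖b - a‖ :=
  (convex_Ioi T).norm_image_sub_le_of_norm_hasDerivWithin_le (f := fun t => S.ι (U t))
    (f' := fun t => S.ι (deriv U t))
    (fun _ ht => (S.ι.hasFDerivAt.comp_hasDerivAt _ (h.1.hasDerivAt isOpen_Ioi ht)).hasDerivWithinAt)
    (fun t ht => (h.2 t ht).2) ha hb

theorem taylor (h : Bd S R (Ioi T) U) (hK : 0 ≤ K)
    (hol : ∀ a b, T < a → T < b → ‖U b - U a‖ ^ 2 ≤ K * ‖b - a‖) {a b : ℝ} (ha : T < a)
    (hb : T < b) : ‖adj S.ι (S.ι (U b)) - adj S.ι (S.ι (U a)) - (b - a) • S.G (U a)‖ ≤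
      (‖S.A‖ + 2 * ‖S.B‖ * R) * √(K * ‖b - a‖) * ‖b - a‖ := by
  have hs : uIcc a b ⊆ Ioi T := (itv_Ioi T).uIcc ha hb
  have hR : 0 ≤ R := (norm_nonneg _).trans (h.2 a ha).1
  have := (convex_uIcc a b).norm_image_sub_le_of_norm_hasDerivWithin_le
    (f := fun t => adj S.ι (S.ι (U t)) - t • S.G (U a)) (f' := fun t => S.G (U t) - S.G (U a))
    (C := (‖S.A‖ + 2 * ‖S.B‖ * R) * √(K * ‖b - a‖)) (fun t ht => ?_) (fun t ht => ?_)
    left_mem_uIcc right_mem_uIcc
  · refine le_trans (le_of_eq (congrArg _ ?_)) this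
    rw [sub_smul]
    abel
  · have h1 := (adj S.ι).hasFDerivAt.comp_hasDerivAt t
      (S.ι.hasFDerivAt.comp_hasDerivAt t (h.1.hasDerivAt isOpen_Ioi (hs ht)))
    rw [h.1.2 t (hs ht)] at h1
    have h2 := (h1.sub ((hasDerivAt_id t).smul_const (S.G (U a)))).hasDerivWithinAt (s := uIcc a b)
    rw [one_smul] at h2
    exact h2
  · refine (G_lip S (h.2 t (hs ht)).1 (h.2 a ha).1).trans
      (mul_le_mul_of_nonneg_left (Real.le_sqrt_of_sq_le ((hol a t ha (hs ht)).trans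
        (mul_le_mul_of_nonneg_left ?_ hK))) (by positivity))
    exact abs_sub_left_of_mem_uIcc ht

end Lim

open Lim in
theorem lim : OfLim := by
  intro hH hS H V _ _ _ _ _ _ S R T U l hc hl h
  obtain ⟨K, hK, hol⟩ := hH S R
  have hol1 : ∀ a b, T < a → T < b → ‖U b - U a‖ ^ 2 ≤ K * ‖S.ι (U b) - S.ι (U a)‖ :=
    fun a b ha hb => by
      rw [← map_sub]
      exact hol _ _ _ _ (h.1.2 b hb) (h.1.2 a ha) (h.2 b hb).1 (h.2 a ha).1 (h.2 b hb).2
        (h.2 a ha).2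
  have hR : 0 ≤ R := (norm_nonneg _).trans (h.2 (T + 1) (lt_add_one T)).1
  have hol2 : ∀ a b, T < a → T < b → ‖U b - U a‖ ^ 2 ≤ K * R * ‖b - a‖ := fun a b ha hb => by
    rw [mul_assoc]
    exact (hol1 a b ha hb).trans (mul_le_mul_of_nonneg_left (lip h ha hb) hK)
  have ev : ∀ s, ∀ᶠ t in l, T < t + s := fun s =>
    hl ((tendsto_atTop_add_const_right _ s tendsto_id).eventually_gt_atTop T)
  obtain ⟨C, hC, hCs⟩ := hc.image_closedBall_subset_compact (f := S.ι.toLinearMap) R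
  have ex : ∀ s, ∃ x, Tendsto (fun t => U (t + s)) l (𝓝 x) := fun s => by
    obtain ⟨y, -, hy⟩ := hC.ultrafilter_le_nhds (l.map fun t => S.ι (U (t + s)))
      (le_principal_iff.2 ((ev s).mono fun t ht =>
        hCs ⟨_, mem_closedBall_zero_iff.2 (h.2 _ ht).1, rfl⟩))
    have hy' : Tendsto (fun t => S.ι (U (t + s))) l (𝓝 y) := hy
    refine cauchy_map_iff_exists_tendsto.1 (cauchy_map_iff.2 ⟨inferInstance, ?_⟩)
    rw [tendsto_uniformity_iff_dist_tendsto_zero]
    have h1 := (((hy'.comp (tendsto_fst (g := (l : Filter ℝ)))).sub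
      (hy'.comp (tendsto_snd (f := (l : Filter ℝ))))).norm.const_mul K).sqrt
    simp only [sub_self, norm_zero, mul_zero, Real.sqrt_zero] at h1
    refine squeeze_zero' (Eventually.of_forall fun _ => dist_nonneg) ?_ h1
    filter_upwards [(ev s).prod_mk (ev s)] with p hp
    rw [dist_eq_norm]
    exact Real.le_sqrt_of_sq_le (hol1 _ _ hp.2 hp.1)
  choose W hW using ex
  have hι : ∀ s, Tendsto (fun t => S.ι (U (t + s))) l (𝓝 (S.ι (W s))) := fun s =>
    (S.ι.continuous.tendsto _).comp (hW s)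
  have w1 : ∀ a b, ‖S.ι (W b) - S.ι (W a)‖ ≤ R * ‖b - a‖ := fun a b =>
    le_of_tendsto ((hι b).sub (hι a)).norm (by
      filter_upwards [ev a, ev b] with t ha hb
      simpa using lip h ha hb)
  have w2 : ∀ a b, ‖W b - W a‖ ≤ √(K * R * ‖b - a‖) := fun a b =>
    le_of_tendsto ((hW b).sub (hW a)).norm (by
      filter_upwards [ev a, ev b] with t ha hb
      simpa using Real.le_sqrt_of_sq_le (hol2 _ _ ha hb))
  have sq0 : ∀ a : ℝ, Tendsto (fun b : ℝ => √(K * R * ‖b - a‖)) (𝓝 a) (𝓝 0) := fun a =>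
    Continuous.tendsto' (by fun_prop) _ _ (by simp)
  have wc : Continuous W := continuous_iff_continuousAt.2 fun a =>
    tendsto_iff_norm_sub_tendsto_zero.2
      (squeeze_zero (fun _ => norm_nonneg _) (w2 a) (sq0 a))
  have hj : ∀ s, Tendsto (fun t => adj S.ι (S.ι (U (t + s)))) l (𝓝 (adj S.ι (S.ι (W s)))) :=
    fun s => ((adj S.ι).continuous.tendsto _).comp (hι s)
  have w3 : ∀ a b, ‖adj S.ι (S.ι (W b)) - adj S.ι (S.ι (W a)) - (b - a) • S.G (W a)‖ ≤
      (‖S.A‖ + 2 * ‖S.B‖ * R) * √(K * R * ‖b - a‖) * ‖b - a‖ := fun a b =>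
    le_of_tendsto (((hj b).sub (hj a)).sub
      (((S.cont_G.tendsto _).comp (hW a)).const_smul (b - a))).norm (by
      filter_upwards [ev a, ev b] with t ha hb
      simpa using taylor h (mul_nonneg hK hR) hol2 ha hb)
  have wd : ∀ a, HasDerivAt (fun t => adj S.ι (S.ι (W t))) (S.G (W a)) a := fun a => by
    rw [hasDerivAt_iff_isLittleO, Asymptotics.isLittleO_iff]
    intro c hc
    have h1 := (sq0 a).const_mul (‖S.A‖ + 2 * ‖S.B‖ * R)
    rw [mul_zero] at h1
    filter_upwards [h1.eventually_le_const hc] with b hb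
    exact (w3 a b).trans (mul_le_mul_of_nonneg_right hb (norm_nonneg _))
  have cG : Continuous fun t => S.G (W t) := S.cont_G.comp wc
  obtain ⟨W', hW', e⟩ := hS (S := S) (z := fun t => S.ι (W t)) (Z := W) itv_univ
    ⟨(S.ι.continuous.comp wc).continuousOn, Loc2.of_cont itv_univ wc.continuousOn,
      Loc2.of_cont itv_univ cG.continuousOn, Eventually.of_forall fun _ _ => rfl, fun s _ t _ =>
      (intervalIntegral.integral_eq_sub_of_hasDerivAt (fun r _ => wd r)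
        (cG.intervalIntegrable s t)).symm⟩
  obtain rfl : W' = W := funext fun t => S.inj (e t (mem_univ t))
  refine ⟨W', ⟨hW', fun t _ => ⟨le_of_tendsto (hW t).norm ((ev t).mono fun r hr => (h.2 _ hr).1),
    ?_⟩⟩, hW⟩
  exact (S.ι.hasFDerivAt.comp_hasDerivAt t (hW'.hasDerivAt isOpen_univ (mem_univ t))).le_of_lip' hR
    (Eventually.of_forall (w1 t))

end Pool.Agent.MP_ed9623_an.H77
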